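import Mathlib
import Pool.Agent.Lib.MP_b24f15_nt.Gap.Count

set_option autoImplicit false

namespace Pool.Agent.Results.MP_b24f15_nt.GapPrinciple

/-- Let `h` be the Thue-Morse Fibonacci sequence. (1) If `x < y` are two Fibonacci numbers which
both occur among the `|h n|`, then `x ^ 9 ≤ 1458 * 195 ^ 4 * y ^ 8`, and `x ^ 10 < y ^ 9` if
`5 < y`. (2) At most `5 + 10 * log (log T)` Fibonacci numbers `x ≤ T` occur among the `|h n|`. -/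
theorem result (h : ℕ → ℤ) (h0 : h 0 = 0) (h1 : h 1 = 1)
    (hrec : ∀ n, h (n + 2) = (-1) ^ (Nat.digits 2 (n + 2)).sum * h (n + 1) + h n) :
    (∀ x y : ℕ, ((∃ m, x = Nat.fib m) ∧ ∃ n, |h n| = (x : ℤ)) →
      ((∃ m, y = Nat.fib m) ∧ ∃ n, |h n| = (y : ℤ)) → x < y →
      x ^ 9 ≤ 1458 * 195 ^ 4 * y ^ 8 ∧ (5 < y → x ^ 10 < y ^ 9)) ∧
    (∀ T : ℝ, 3 ≤ T →
      (({x : ℕ | ((∃ m, x = Nat.fib m) ∧ ∃ n, |h n| = (x : ℤ)) ∧ (x : ℝ) ≤ T}.ncard : ℕ) : ℝ)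
        ≤ 5 + 10 * Real.log (Real.log T)) :=
  ⟨fun x y hx hy hxy =>
    ⟨Pool.Agent.Lib.MP_b24f15_nt.Gap.gap_one h h0 h1 hrec x y hx hy hxy,
      fun h5 => Pool.Agent.Lib.MP_b24f15_nt.Gap.gap_two h h0 h1 hrec x y hx hy hxy h5⟩,
    fun T hT => Pool.Agent.Lib.MP_b24f15_nt.Gap.count h h0 h1 hrec T hT⟩

end Pool.Agent.Results.MP_b24f15_nt.GapPrinciple
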